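import Mathlib

set_option autoImplicit false

namespace Pool.Agent.Results.MP_93dabc_an.Counter

open MeasureTheory Set unitInterval

@[instance_reducible] def cc : MeasurableSpace I where
  MeasurableSet' s := s.Countable ∨ sᶜ.Countable
  measurableSet_empty := .inl countable_empty
  measurableSet_compl s h := by rw [compl_compl]; exact h.symm
  measurableSet_iUnion f h := by
    by_cases c : ∀ i, (f i).Countable
    · exact .inl (countable_iUnion c)
    · obtain ⟨i, c⟩ := not_forall.mp c
      exact .inr (((h i).resolve_left c).mono (compl_subset_compl.mpr (subset_iUnion _ i)))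

theorem result : ∃ (Ω : Type) (_ : MeasurableSpace Ω) (μ : Measure Ω),
    IsProbabilityMeasure μ ∧ μ.IsComplete ∧
    ∃ (X : Type) (_ : NormedAddCommGroup X) (_ : NormedSpace ℝ X), CompleteSpace X ∧
    ∃ F : Ω → Set X, (∀ t, (F t).Nonempty ∧ Convex ℝ (F t) ∧ IsClosed (F t)) ∧
      (∀ φ : StrongDual ℝ X, φ ≠ 0 → ∀ a : ℝ,
        MeasurableSet {t | (F t ∩ {x | a < φ x}).Nonempty}) ∧
      ∀ f : Ω → X, (∀ t, f t ∈ F t) → ¬ ∀ φ : StrongDual ℝ X, Measurable fun t => φ (f t) := by
  classical
  have le : cc ≤ Subtype.instMeasurableSpace := fun s h =>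
    h.elim Countable.measurableSet fun h => .of_compl h.measurableSet
  refine ⟨I, cc, volume.trim le, @IsProbabilityMeasure.mk _ cc _ ((trim_measurableSet_eq le
    (@MeasurableSet.univ _ cc)).trans measure_univ), @Measure.IsComplete.mk _ cc _
    fun s h => ?_, lp (fun _ : I => ℝ) 1, inferInstance, inferInstance, inferInstance,
    fun t => (lp.evalCLM ℝ _ 1 t) ⁻¹' {1}, fun t => ⟨⟨lp.single 1 t 1, lp.single_apply_self 1 t 1⟩,
    (convex_singleton _).linear_preimage (lp.evalCLM ℝ (fun _ : I => ℝ) 1 t).toLinearMap,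
    isClosed_singleton.preimage (map_continuous _)⟩, fun φ h a => ?_, fun f hf h => ?_⟩
  · obtain ⟨t, a, b, c⟩ := @exists_measurable_superset_of_null _ cc _ _ h
    rw [trim_measurableSet_eq le b] at c
    refine .inl ((b.resolve_right fun d => ?_).mono a)
    have := measure_union_null c (d.measure_zero volume)
    simp at this
  · obtain ⟨s, hs⟩ : ∃ s, φ (lp.single 1 s 1) ≠ 0 := by
      by_contra! c
      exact h (lp.ext_continuousLinearMap (by simp) fun i => ContinuousLinearMap.ext_ring (c i))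
    refine .inr ((countable_singleton s).mono fun t c => by_contra fun e => c
      ⟨lp.single 1 t 1 + ((a + 1 - φ (lp.single 1 t 1)) / φ (lp.single 1 s 1)) • lp.single 1 s 1,
        ?_, by simp [div_mul_cancel₀ _ hs]⟩)
    show lp.evalCLM ℝ _ 1 t _ = _
    rw [map_add, map_smul]
    simp [lp.evalCLM, Pi.single_eq_of_ne (show t ≠ s from e)]
  obtain ⟨B, hB, -, b⟩ := TopologicalSpace.exists_countable_basis I
  have s : ∀ t, Summable fun i => ‖f t i‖ := fun t => by simpa using (f t).2.summable
  have k : ∀ t, ∃ U ∈ B, t ∈ U ∧ ∀ A ⊆ U, t ∉ A → |∑' i, A.indicator (f t) i| < 1 / 2 := by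
    intro t
    obtain ⟨S, hS⟩ := summable_iff_vanishing_norm.mp (s t) (1 / 4) (by norm_num)
    obtain ⟨U, h1, h2, h3⟩ := b.exists_subset_of_mem_open (a := t)
      (u := ((S.erase t : Finset I) : Set I)ᶜ) (by simp) (Finset.finite_toSet _).isClosed.isOpen_compl
    refine ⟨U, h1, h2, fun A c e => lt_of_le_of_lt (b := 1 / 4) (le_of_tendsto'
      ((s t).of_norm.indicator A).hasSum.norm fun T => ?_) (by norm_num)⟩
    simp only [indicator_apply, ← Finset.sum_filter]
    refine (norm_sum_le _ _).trans ((le_abs_self _).trans (hS _ (Finset.disjoint_left.mpr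
      fun i c1 c2 => h3 (c (Finset.mem_filter.mp c1).2) ?_)).le)
    exact Finset.mem_erase.mpr ⟨fun z => e (z ▸ (Finset.mem_filter.mp c1).2), c2⟩
  choose U h1 h2 h3 using k
  obtain ⟨V, hV⟩ : ∃ V, ¬ {t | U t = V}.Countable := by
    by_contra! c
    simpa using ((hB.biUnion fun V _ => c V).mono fun t (_ : t ∈ univ) =>
      mem_biUnion (h1 t) rfl).measure_zero volume
  set T := {t | U t = V}
  have : Infinite T := infinite_coe_iff.mpr fun c => hV c.countable
  obtain ⟨e⟩ : Nonempty (T ⊕ T ≃ T) := Cardinal.eq.mp (by simp)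
  let A : Set I := range fun t => e (.inl t)
  let φ := ((lp.tsumCLM ℝ _ ℝ).comp (lp.mapCLM 1 (fun i => if i ∈ A then
    ContinuousLinearMap.id ℝ ℝ else 0) zero_le_one fun i => by split_ifs <;> simp))
  have m := h φ (measurableSet_Ioi (a := 1 / 2))
  have : ∀ x, φ x = ∑' i, A.indicator x i := fun x => tsum_congr fun i => by
    by_cases c : i ∈ A <;> simp [c]
  simp only [this] at m
  have g : ∀ A' ⊆ A, ∀ t : T, t.1 ∉ A' → |∑' i, A'.indicator (f t) i| < 1 / 2 := fun A' c t =>
    h3 _ _ fun i d => by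
      obtain ⟨j, rfl⟩ := c d
      exact (t.2.trans (e _).2.symm :) ▸ h2 _
  have u : ∀ (g : T → T ⊕ T) (S : Set I), Function.Injective g → (∀ t, (e (g t)).1 ∈ S) →
      ¬ S.Countable := fun g S i c d => hV (countable_coe_iff.mp
    (@Function.Injective.countable _ S d.to_subtype (fun t => ⟨_, c t⟩) fun a b z =>
      i (e.injective (Subtype.ext (Subtype.mk.inj z)))))
  replace m : {t | 1 / 2 < ∑' i, A.indicator (f t) i}.Countable ∨
      {t | 1 / 2 < ∑' i, A.indicator (f t) i}ᶜ.Countable := m
  refine m.elim (u _ _ Sum.inl_injective fun t => ?_) (u _ _ Sum.inr_injective fun t =>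
    ((le_abs_self _).trans_lt (g A le_rfl _ fun ⟨j, z⟩ => ?_)).not_gt)
  · have := g (A \ {(e (.inl t)).1}) sdiff_subset (e (.inl t)) (by simp)
    have z : f (e (.inl t)) (e (.inl t)) = 1 := hf _
    rw [mem_ofPred_eq, ((s _).of_norm.indicator A).tsum_eq_add_tsum_ite (e (.inl t)).1,
      indicator_of_mem (mem_range_self t), z, tsum_congr (g := (A \ {(e (.inl t)).1}).indicator
        (f (e (.inl t)))) fun i => by by_cases c : i = e (.inl t) <;> simp [c, indicator]]
    linarith [(abs_lt.mp this).1]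
  · simpa using e.injective (Subtype.ext z)

end Pool.Agent.Results.MP_93dabc_an.Counter
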